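import Pool.Agent.CWA.St
import Pool.Agent.CWA.MainA
import Pool.Agent.CWA.RoInA
import Pool.Agent.CWA.Sparse

/-!
# Hitting sets of polynomial size for read-once branching programs of constant width in unknown order

Black-box identity testing, in polynomial time, for read-once oblivious algebraic branching programs
of constant width in unknown variable order, for their orbits under polynomial automorphisms of
affine space, and for formulas of bounded depth with such programs and gates of bounded occurrence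
as gates.
-/

set_option autoImplicit false

namespace Pool.Agent.Results.MP_e2be99_lc.ConstantWidthROABP

open MvPolynomial Pool.Agent.CWR Pool.Agent.CWT

theorem result (n κ k w s Δ D : ℕ) :
    (hitA n κ k w s Δ D).card ≤ (radA n κ k w s Δ D + 1) ^ (2 * seedA κ k w Δ) ∧
    (∀ x ∈ hitA n κ k w s Δ D, ∀ i, x i ≤ seedA κ k w Δ * radA n κ k w s Δ D *
      (ordA n κ k w s Δ * ((ordA n κ k w s Δ).factorial *
        (n * radA n κ k w s Δ D + 1) ^ ordA n κ k w s Δ))) ∧
    ∀ (K : Type*) [Field K] [CharZero K],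
      Hits (K := K) (hitA n κ k w s Δ D) D (AutCirc κ k w s Δ) ∧
      HasROABP K n w ∧ (2 ≤ s → HasSparse K n s) :=
  ⟨Pool.Agent.ORA.card_hitSet n _ _ _, fun x hx i => Pool.Agent.ORA.bound_hitSet n _ _ _ x hx i,
    fun K _ _ => ⟨fun m g hg f hf hD => by
        refine Pool.Agent.CWA.main_hit κ k w s Δ D m g (fun j => ?_) (fun j => (hg j).1) f hf hD
        obtain ⟨φ, a, β, N, T, h, ⟨c, hc, hφ⟩, ha, hT, htr, halg, he⟩ := (hg j).2
        exact ⟨φ, c, a, β, N, T, h, hc, hφ, ha, hT, htr, halg, he⟩,
      fun q blk F φ hq hF hφ => by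
        obtain ⟨c, hc, hφ⟩ := hφ
        obtain ⟨φ', c', a, β, N, T, h, hc', hφ', ha, hT, htr, halg, he⟩ :=
          Pool.Agent.CWA.autCirc_of_roabp hq hF φ c hc hφ
        exact ⟨φ', a, β, N, T, h, ⟨c', hc', hφ'⟩, ha, hT, htr, halg, he⟩,
      fun hs => ⟨Pool.Agent.CWA.isFrame_diagonal hs, fun _ hg => Pool.Agent.CWA.frameLeaf_diagonal hg⟩⟩⟩

end Pool.Agent.Results.MP_e2be99_lc.ConstantWidthROABP
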